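import Pool.Agent.Lib.MP_cd9307_al.Defs

universe u

namespace Pool.Agent.Lib.MP_cd9307_al

instance {α : Type} : Add (Term α) := ⟨Term.add⟩
instance {α : Type} : Mul (Term α) := ⟨Term.mul⟩

section eval
variable {α β : Type} {A : Type u} [Add A] [Mul A]

@[simp] theorem eval_var (ρ : α → A) (a : α) : (Term.var a).eval ρ = ρ a := rfl
@[simp] theorem eval_add (ρ : α → A) (s t : Term α) :
    (s + t).eval ρ = s.eval ρ + t.eval ρ := rfl
@[simp] theorem eval_mul (ρ : α → A) (s t : Term α) :
    (s * t).eval ρ = s.eval ρ * t.eval ρ := rfl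
@[simp] theorem eval_add' (ρ : α → A) (s t : Term α) :
    (Term.add s t).eval ρ = s.eval ρ + t.eval ρ := rfl
@[simp] theorem eval_mul' (ρ : α → A) (s t : Term α) :
    (Term.mul s t).eval ρ = s.eval ρ * t.eval ρ := rfl

/-- Substitution. -/
def Term.bind (f : α → Term β) : Term α → Term β
  | .var a => f a
  | .add s t => .add (s.bind f) (t.bind f)
  | .mul s t => .mul (s.bind f) (t.bind f)

theorem eval_bind (ρ : β → A) (f : α → Term β) (s : Term α) :
    (s.bind f).eval ρ = s.eval (fun a => (f a).eval ρ) := by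
  induction s with
  | var a => rfl
  | add s t hs ht => simp only [Term.bind, eval_add', hs, ht]
  | mul s t hs ht => simp only [Term.bind, eval_mul', hs, ht]

/-- The set of variables of a term. -/
def Term.vars : Term α → Set α
  | .var a => {a}
  | .add s t => s.vars ∪ t.vars
  | .mul s t => s.vars ∪ t.vars

@[simp] theorem vars_var (a : α) : (Term.var a).vars = {a} := rfl
@[simp] theorem vars_add (s t : Term α) : (s + t).vars = s.vars ∪ t.vars := rfl
@[simp] theorem vars_mul (s t : Term α) : (s * t).vars = s.vars ∪ t.vars := rfl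
@[simp] theorem vars_add' (s t : Term α) : (Term.add s t).vars = s.vars ∪ t.vars := rfl
@[simp] theorem vars_mul' (s t : Term α) : (Term.mul s t).vars = s.vars ∪ t.vars := rfl

theorem mem_vars_bind (f : α → Term β) (s : Term α) (b : β) :
    b ∈ (s.bind f).vars ↔ ∃ a ∈ s.vars, b ∈ (f a).vars := by
  induction s with
  | var a => simp [Term.bind]
  | add s t hs ht =>
    simp only [Term.bind, vars_add', Set.mem_union, hs, ht]
    constructor
    · rintro (⟨a, h1, h2⟩ | ⟨a, h1, h2⟩)
      · exact ⟨a, Or.inl h1, h2⟩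
      · exact ⟨a, Or.inr h1, h2⟩
    · rintro ⟨a, h1 | h1, h2⟩
      · exact Or.inl ⟨a, h1, h2⟩
      · exact Or.inr ⟨a, h1, h2⟩
  | mul s t hs ht =>
    simp only [Term.bind, vars_mul', Set.mem_union, hs, ht]
    constructor
    · rintro (⟨a, h1, h2⟩ | ⟨a, h1, h2⟩)
      · exact ⟨a, Or.inl h1, h2⟩
      · exact ⟨a, Or.inr h1, h2⟩
    · rintro ⟨a, h1 | h1, h2⟩
      · exact Or.inl ⟨a, h1, h2⟩
      · exact Or.inr ⟨a, h1, h2⟩

theorem eval_congr (ρ τ : α → A) (s : Term α) (h : ∀ a ∈ s.vars, ρ a = τ a) :
    s.eval ρ = s.eval τ := by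
  induction s with
  | var a => exact h a rfl
  | add s t hs ht =>
    rw [eval_add', eval_add', hs (fun a ha => h a (Or.inl ha)), ht (fun a ha => h a (Or.inr ha))]
  | mul s t hs ht =>
    rw [eval_mul', eval_mul', hs (fun a ha => h a (Or.inl ha)), ht (fun a ha => h a (Or.inr ha))]

theorem vars_nonempty (s : Term α) : s.vars.Nonempty := by
  induction s with
  | var a => exact ⟨a, rfl⟩
  | add s t hs _ => exact hs.mono Set.subset_union_left
  | mul s t hs _ => exact hs.mono Set.subset_union_left

end eval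

/-! ### Multiplicative and additive contexts -/

/-- Optional multiplication by `U` on the left and `V` on the right. -/
def wrap {A : Type u} [Mul A] (i : Bool × Bool) (U V x : A) : A :=
  match i with
  | (false, false) => x
  | (true, false) => U * x
  | (false, true) => x * V
  | (true, true) => U * x * V

/-- Optional addition. -/
def addO {A : Type u} [Add A] (b : Bool) (x W : A) : A :=
  match b with
  | false => x
  | true => x + W

section
variable {A : Type u} [Add A] [Mul A]

theorem eval_wrap {α : Type} (ρ : α → A) (i : Bool × Bool) (U V x : Term α) :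
    (wrap i U V x).eval ρ = wrap i (U.eval ρ) (V.eval ρ) (x.eval ρ) := by
  rcases i with ⟨_ | _, _ | _⟩ <;> rfl

theorem eval_addO {α : Type} (ρ : α → A) (b : Bool) (x W : Term α) :
    (addO b x W).eval ρ = addO b (x.eval ρ) (W.eval ρ) := by
  cases b <;> rfl

variable (hA : IsSemiring A)
include hA

theorem wrap_add (i : Bool × Bool) (U V x y : A) :
    wrap i U V (x + y) = wrap i U V x + wrap i U V y := by
  rcases i with ⟨_ | _, _ | _⟩
  · rfl
  · exact hA.add_mul _ _ _
  · exact hA.mul_add _ _ _
  · simp only [wrap, hA.mul_add, hA.add_mul]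

theorem wrap_mul_left (i : Bool × Bool) (U V u : A) :
    ∃ (i' : Bool × Bool) (U' : A), ∀ x, wrap i U V (u * x) = wrap i' U' V x := by
  rcases i with ⟨_ | _, _ | _⟩
  · exact ⟨(true, false), u, fun x => rfl⟩
  · exact ⟨(true, true), u, fun x => rfl⟩
  · exact ⟨(true, false), U * u, fun x => (hA.mul_assoc _ _ _).symm⟩
  · exact ⟨(true, true), U * u, fun x => by simp only [wrap, hA.mul_assoc]⟩

theorem wrap_mul_right (i : Bool × Bool) (U V v : A) :
    ∃ (i' : Bool × Bool) (V' : A), ∀ x, wrap i U V (x * v) = wrap i' U V' x := by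
  rcases i with ⟨_ | _, _ | _⟩
  · exact ⟨(false, true), v, fun x => rfl⟩
  · exact ⟨(false, true), v * V, fun x => by simp only [wrap, hA.mul_assoc]⟩
  · exact ⟨(true, true), v, fun x => by simp only [wrap, hA.mul_assoc]⟩
  · exact ⟨(true, true), v * V, fun x => by simp only [wrap, hA.mul_assoc]⟩

theorem mul_wrap (i : Bool × Bool) (U V u : A) :
    ∃ (i' : Bool × Bool) (U' : A), ∀ x, u * wrap i U V x = wrap i' U' V x := by
  rcases i with ⟨_ | _, _ | _⟩
  · exact ⟨(true, false), u, fun x => rfl⟩
  · exact ⟨(true, true), u, fun x => (hA.mul_assoc _ _ _).symm⟩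
  · exact ⟨(true, false), u * U, fun x => (hA.mul_assoc _ _ _).symm⟩
  · exact ⟨(true, true), u * U, fun x => by simp only [wrap, hA.mul_assoc]⟩

theorem wrap_mul (i : Bool × Bool) (U V v : A) :
    ∃ (i' : Bool × Bool) (V' : A), ∀ x, wrap i U V x * v = wrap i' U V' x := by
  rcases i with ⟨_ | _, _ | _⟩
  · exact ⟨(false, true), v, fun x => rfl⟩
  · exact ⟨(false, true), V * v, fun x => by simp only [wrap, hA.mul_assoc]⟩
  · exact ⟨(true, true), v, fun x => by simp only [wrap, hA.mul_assoc]⟩
  · exact ⟨(true, true), V * v, fun x => by simp only [wrap, hA.mul_assoc]⟩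

end

end Pool.Agent.Lib.MP_cd9307_al
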