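import Pool.Agent.Lib.MP_cd9307_al.Basic

universe u

namespace Pool.Agent.Lib.MP_cd9307_al

/-- The assignment on `Option ℕ` given by `g` at `none` and `σ` elsewhere. -/
def ext {A : Type u} (σ : ℕ → A) (g : A) : Option ℕ → A := fun o => o.elim g σ

/-- The identities attached to a pair `p`, `r` hold in `A`. -/
structure Good (A : Type u) [Add A] [Mul A] (p : Term ℕ) (r : Term (Option ℕ)) : Prop where
  g1 : ∀ i (U V : A) (σ : ℕ → A) x,
    wrap i U V (p.eval σ) + x = wrap i U V (p.eval σ) + x + wrap i U V (r.eval (ext σ x))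
  gl : ∀ i b (U V W : A) (σ : ℕ → A),
    addO b (wrap i U V (p.eval σ)) W = addO b (wrap i U V (p.eval σ)) W +
      wrap i U V (r.eval (ext σ (addO b (wrap i U V (p.eval σ)) W)))
  g2a : ∀ i b (U V W x y : A) (σ : ℕ → A),
    p.eval σ + r.eval (ext σ (addO b (wrap i U V (x * y)) W)) =
      p.eval σ + r.eval (ext σ (addO b (wrap i U V (y * x)) W))
  g2b : ∀ i b (U V W x : A) (σ : ℕ → A),
    p.eval σ + r.eval (ext σ (addO b (wrap i U V (x * x)) W)) =
      p.eval σ + r.eval (ext σ (addO b (wrap i U V x) W))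
  g2c : ∀ i b (U V W x y : A) (σ : ℕ → A),
    p.eval σ + r.eval (ext σ (addO b (wrap i U V (x + y)) W)) =
      p.eval σ + r.eval (ext σ (addO b (wrap i U V (x * y)) W))

section
variable {A : Type u} [Add A] [Mul A] (hA : IsSemiring A)

/-- Elements that are values of terms involving all the variables in `X`. -/
def Full (ρ : ℕ → A) (X : Set ℕ) (a : A) : Prop := ∃ s : Term ℕ, X ⊆ s.vars ∧ s.eval ρ = a

theorem Full.add_right {ρ : ℕ → A} (hρ : ∀ a, ∃ s : Term ℕ, s.eval ρ = a) {X : Set ℕ} {a : A}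
    (h : Full ρ X a) (b : A) : Full ρ X (a + b) := by
  obtain ⟨s, hs, rfl⟩ := h
  obtain ⟨t, rfl⟩ := hρ b
  exact ⟨s + t, hs.trans Set.subset_union_left, rfl⟩

theorem Full.add_left {ρ : ℕ → A} (hρ : ∀ a, ∃ s : Term ℕ, s.eval ρ = a) {X : Set ℕ} {a : A}
    (h : Full ρ X a) (b : A) : Full ρ X (b + a) := by
  obtain ⟨s, hs, rfl⟩ := h
  obtain ⟨t, rfl⟩ := hρ b
  exact ⟨t + s, hs.trans Set.subset_union_right, rfl⟩

theorem Full.mul_right {ρ : ℕ → A} (hρ : ∀ a, ∃ s : Term ℕ, s.eval ρ = a) {X : Set ℕ} {a : A}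
    (h : Full ρ X a) (b : A) : Full ρ X (a * b) := by
  obtain ⟨s, hs, rfl⟩ := h
  obtain ⟨t, rfl⟩ := hρ b
  exact ⟨s * t, hs.trans Set.subset_union_left, rfl⟩

theorem Full.mul_left {ρ : ℕ → A} (hρ : ∀ a, ∃ s : Term ℕ, s.eval ρ = a) {X : Set ℕ} {a : A}
    (h : Full ρ X a) (b : A) : Full ρ X (b * a) := by
  obtain ⟨s, hs, rfl⟩ := h
  obtain ⟨t, rfl⟩ := hρ b
  exact ⟨t * s, hs.trans Set.subset_union_right, rfl⟩

theorem Full.eval {α : Type} {ρ : ℕ → A} (hρ : ∀ a, ∃ s : Term ℕ, s.eval ρ = a) {X : Set ℕ}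
    (τ : α → A) (r : Term α) (a : α) (ha : a ∈ r.vars) (h : Full ρ X (τ a)) :
    Full ρ X (r.eval τ) := by
  induction r with
  | var b => rw [Set.mem_singleton_iff.1 ha] at h; exact h
  | add s t hs ht =>
    rcases ha with ha | ha
    · exact (hs ha).add_right hρ _
    · exact (ht ha).add_left hρ _
  | mul s t hs ht =>
    rcases ha with ha | ha
    · exact (hs ha).mul_right hρ _
    · exact (ht ha).mul_left hρ _

theorem Full.wrap {ρ : ℕ → A} (hρ : ∀ a, ∃ s : Term ℕ, s.eval ρ = a) {X : Set ℕ} {a : A}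
    (h : Full ρ X a) (i : Bool × Bool) (U V : A) : Full ρ X (wrap i U V a) := by
  rcases i with ⟨_ | _, _ | _⟩
  · exact h
  · exact h.mul_right hρ _
  · exact h.mul_left hρ _
  · exact (h.mul_left hρ _).mul_right hρ _

/-- The relation used for content insensitivity. -/
def ER (p : Term ℕ) (r : Term (Option ℕ)) (σ : ℕ → A) (a b : A) : Prop :=
  ∀ i c (U V W : A), p.eval σ + r.eval (ext σ (addO c (MP_cd9307_al.wrap i U V a) W)) =
    p.eval σ + r.eval (ext σ (addO c (MP_cd9307_al.wrap i U V b) W))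

theorem ER.refl (p : Term ℕ) (r : Term (Option ℕ)) (σ : ℕ → A) (a : A) : ER p r σ a a :=
  fun _ _ _ _ _ => rfl

theorem ER.symm {p : Term ℕ} {r : Term (Option ℕ)} {σ : ℕ → A} {a b : A} (h : ER p r σ a b) :
    ER p r σ b a := fun i c U V W => (h i c U V W).symm

theorem ER.trans {p : Term ℕ} {r : Term (Option ℕ)} {σ : ℕ → A} {a b d : A} (h : ER p r σ a b)
    (h' : ER p r σ b d) : ER p r σ a d := fun i c U V W => (h i c U V W).trans (h' i c U V W)

include hA

theorem ER.mul_left {p : Term ℕ} {r : Term (Option ℕ)} {σ : ℕ → A} {a b : A}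
    (h : ER p r σ a b) (u : A) : ER p r σ (u * a) (u * b) := by
  intro i c U V W
  obtain ⟨i', U', hw⟩ := wrap_mul_left hA i U V u
  rw [hw, hw]
  exact h i' c U' V W

theorem ER.mul_right {p : Term ℕ} {r : Term (Option ℕ)} {σ : ℕ → A} {a b : A}
    (h : ER p r σ a b) (v : A) : ER p r σ (a * v) (b * v) := by
  intro i c U V W
  obtain ⟨i', V', hw⟩ := wrap_mul_right hA i U V v
  rw [hw, hw]
  exact h i' c U V' W

theorem ER.eval_mul_var {p : Term ℕ} {r : Term (Option ℕ)} (hg : Good A p r) {σ : ℕ → A}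
    (ρ : ℕ → A) (s : Term ℕ) (n : ℕ) (hn : n ∈ s.vars) :
    ER p r σ (s.eval ρ * ρ n) (s.eval ρ) := by
  induction s with
  | var m =>
    rw [Set.mem_singleton_iff.1 hn]
    exact fun i c U V W => hg.g2b i c U V W _ σ
  | add s t hs ht =>
    have key : ER p r σ (s.eval ρ + t.eval ρ) (s.eval ρ * t.eval ρ) :=
      fun i c U V W => hg.g2c i c U V W _ _ σ
    have key2 : ER p r σ (s.eval ρ * t.eval ρ * ρ n) (s.eval ρ * t.eval ρ) := by
      rw [hA.mul_assoc]
      rcases hn with hn | hn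
      · have h1 : ER p r σ (s.eval ρ * (t.eval ρ * ρ n)) (s.eval ρ * (ρ n * t.eval ρ)) :=
          ER.mul_left hA (fun i c U V W => hg.g2a i c U V W _ _ σ) _
        refine h1.trans ?_
        rw [← hA.mul_assoc]
        exact ER.mul_right hA (hs hn) _
      · exact ER.mul_left hA (ht hn) _
    exact (ER.mul_right hA key _).trans (key2.trans key.symm)
  | mul s t hs ht =>
    rw [eval_mul', hA.mul_assoc]
    rcases hn with hn | hn
    · have h1 : ER p r σ (s.eval ρ * (t.eval ρ * ρ n)) (s.eval ρ * (ρ n * t.eval ρ)) :=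
        ER.mul_left hA (fun i c U V W => hg.g2a i c U V W _ _ σ) _
      refine h1.trans ?_
      rw [← hA.mul_assoc]
      exact ER.mul_right hA (hs hn) _
    · exact ER.mul_left hA (ht hn) _

theorem ER.eval_mul_eval {p : Term ℕ} {r : Term (Option ℕ)} (hg : Good A p r) {σ : ℕ → A}
    (ρ : ℕ → A) (X : Set ℕ) (hX : ∀ n, ∃ m ∈ X, ρ m = ρ n) (s : Term ℕ) (hs : X ⊆ s.vars)
    (t : Term ℕ) : ER p r σ (s.eval ρ * t.eval ρ) (s.eval ρ) := by
  induction t with
  | var n =>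
    obtain ⟨m, hm, h⟩ := hX n
    rw [eval_var, ← h]
    exact ER.eval_mul_var hA hg ρ s m (hs hm)
  | add a b ha hb =>
    have key : ER p r σ (a.eval ρ + b.eval ρ) (a.eval ρ * b.eval ρ) :=
      fun i c U V W => hg.g2c i c U V W _ _ σ
    refine (ER.mul_left hA key _).trans ?_
    rw [← hA.mul_assoc]
    exact (ER.mul_right hA ha _).trans hb
  | mul a b ha hb =>
    rw [eval_mul', ← hA.mul_assoc]
    exact (ER.mul_right hA ha _).trans hb

theorem content {p : Term ℕ} {r : Term (Option ℕ)} (hg : Good A p r) (σ : ℕ → A)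
    (ρ : ℕ → A) (X : Set ℕ) (hX : ∀ n, ∃ m ∈ X, ρ m = ρ n) {g g' : A} (h : Full ρ X g)
    (h' : Full ρ X g') : p.eval σ + r.eval (ext σ g) = p.eval σ + r.eval (ext σ g') := by
  obtain ⟨s, hs, rfl⟩ := h
  obtain ⟨t, ht, rfl⟩ := h'
  have h1 : ER p r σ (s.eval ρ) (t.eval ρ) :=
    (ER.eval_mul_eval hA hg ρ X hX s hs t).symm.trans
      (ER.trans (fun i c U V W => hg.g2a i c U V W _ _ σ)
        (ER.eval_mul_eval hA hg ρ X hX t ht s))
  exact h1 (false, false) false (s.eval ρ) (s.eval ρ) (s.eval ρ)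

end

end Pool.Agent.Lib.MP_cd9307_al
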