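import Mathlib

universe u

namespace Pool.Agent.Lib.MP_cd9307_al

/-- Terms in the two binary operations `+` and `*` over a set `α` of variables. -/
inductive Term (α : Type) : Type
  | var : α → Term α
  | add : Term α → Term α → Term α
  | mul : Term α → Term α → Term α

/-- The value of a term under an assignment of the variables. -/
def Term.eval {α : Type} {A : Type u} [Add A] [Mul A] (ρ : α → A) : Term α → A
  | .var a => ρ a
  | .add s t => s.eval ρ + t.eval ρ
  | .mul s t => s.eval ρ * t.eval ρ

/-- The identity `s ≈ t` holds in the algebra `A`. -/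
def Holds (A : Type u) [Add A] [Mul A] (s t : Term ℕ) : Prop :=
  ∀ ρ : ℕ → A, s.eval ρ = t.eval ρ

/-- The algebra `A` lies in the variety generated by `S`: it satisfies all identities of `S`. -/
def InVariety (S A : Type u) [Add S] [Mul S] [Add A] [Mul A] : Prop :=
  ∀ s t : Term ℕ, Holds S s t → Holds A s t

/-- The variety generated by `S` is defined by a finite set of identities. -/
def FinitelyBased (S : Type u) [Add S] [Mul S] : Prop :=
  ∃ B : Set (Term ℕ × Term ℕ), B.Finite ∧
    ∀ (A : Type u) [Add A] [Mul A], InVariety S A ↔ ∀ e ∈ B, Holds A e.1 e.2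

/-- The semiring axioms, without zero and identity. -/
structure IsSemiring (S : Type u) [Add S] [Mul S] : Prop where
  add_comm : ∀ x y : S, x + y = y + x
  add_assoc : ∀ x y z : S, (x + y) + z = x + (y + z)
  mul_assoc : ∀ x y z : S, (x * y) * z = x * (y * z)
  add_mul : ∀ x y z : S, (x + y) * z = x * z + y * z
  mul_add : ∀ x y z : S, x * (y + z) = x * y + x * z

/-- The set `S ∪ {∞}`. -/
inductive AdjInf (S : Type u) : Type u
  | of : S → AdjInf S
  | inf : AdjInf S

/-- Addition on `S ∪ {∞}`, with `∞` absorbing. -/
instance {S : Type u} [Add S] : Add (AdjInf S) where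
  add
    | .of s, .of t => .of (s + t)
    | _, _ => .inf

/-- Multiplication on `S ∪ {∞}`, with `∞` absorbing. -/
instance {S : Type u} [Mul S] : Mul (AdjInf S) where
  mul
    | .of s, .of t => .of (s * t)
    | _, _ => .inf

end Pool.Agent.Lib.MP_cd9307_al
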