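import Pool.Agent.Lib.MP_cd9307_al.Quot

universe u

namespace Pool.Agent.Lib.MP_cd9307_al

/-! ### Existence of the absorbed term -/

theorem expand {S : Type u} [Add S] [Mul S] (hS : IsSemiring S) (s : Term (Option ℕ)) :
    (none ∉ s.vars → ∀ (σ : ℕ → S) (g : S), s.eval (ext σ (g + g)) = s.eval (ext σ g)) ∧
    (none ∈ s.vars → ∃ r : Term (Option ℕ), none ∈ r.vars ∧ r.vars ⊆ s.vars ∧
      ∀ (σ : ℕ → S) (g : S), s.eval (ext σ (g + g)) = s.eval (ext σ g) + r.eval (ext σ g)) := by
  refine ⟨fun h σ g => eval_congr _ _ _ ?_, ?_⟩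
  · rintro (_ | n) ha
    · exact absurd ha h
    · rfl
  induction s with
  | var a =>
    intro h
    have ha : none = a := h
    subst ha
    exact ⟨.var none, rfl, fun _ h => h, fun σ g => rfl⟩
  | add s t hs ht =>
    intro h
    by_cases h1 : none ∈ s.vars
    · obtain ⟨r1, m1, v1, e1⟩ := hs h1
      by_cases h2 : none ∈ t.vars
      · obtain ⟨r2, m2, v2, e2⟩ := ht h2
        refine ⟨r1 + r2, Or.inl m1, Set.union_subset_union v1 v2, fun σ g => ?_⟩
        rw [eval_add', eval_add', eval_add, e1, e2, hS.add_assoc, hS.add_assoc,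
          ← hS.add_assoc (r1.eval _), hS.add_comm (r1.eval _) (t.eval _), hS.add_assoc]
      · have e2 : ∀ (σ : ℕ → S) (g : S), t.eval (ext σ (g + g)) = t.eval (ext σ g) := by
          intro σ g
          apply eval_congr
          rintro (_ | n) ha
          · exact absurd ha h2
          · rfl
        refine ⟨r1, m1, v1.trans Set.subset_union_left, fun σ g => ?_⟩
        rw [eval_add', eval_add', e1, e2, hS.add_assoc, hS.add_assoc,
          hS.add_comm (r1.eval _) (t.eval _)]
    · have h2 : none ∈ t.vars := h.resolve_left h1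
      obtain ⟨r2, m2, v2, e2⟩ := ht h2
      have e1 : ∀ (σ : ℕ → S) (g : S), s.eval (ext σ (g + g)) = s.eval (ext σ g) := by
        intro σ g
        apply eval_congr
        rintro (_ | n) ha
        · exact absurd ha h1
        · rfl
      refine ⟨r2, m2, v2.trans Set.subset_union_right, fun σ g => ?_⟩
      rw [eval_add', eval_add', e1, e2, hS.add_assoc]
  | mul s t hs ht =>
    intro h
    by_cases h1 : none ∈ s.vars
    · obtain ⟨r1, m1, v1, e1⟩ := hs h1
      by_cases h2 : none ∈ t.vars
      · obtain ⟨r2, m2, v2, e2⟩ := ht h2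
        refine ⟨(s * r2 + r1 * t) + r1 * r2, Or.inr (Or.inl m1), ?_, fun σ g => ?_⟩
        · rintro a ((ha | ha) | (ha | ha))
          · rcases ha with ha | ha
            · exact Or.inl ha
            · exact Or.inr (v2 ha)
          · rcases ha with ha | ha
            · exact Or.inl (v1 ha)
            · exact Or.inr ha
          · exact Or.inl (v1 ha)
          · exact Or.inr (v2 ha)
        · simp only [eval_mul', eval_add, eval_mul, e1, e2, hS.add_mul, hS.mul_add, hS.add_assoc]
      · have e2 : ∀ (σ : ℕ → S) (g : S), t.eval (ext σ (g + g)) = t.eval (ext σ g) := by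
          intro σ g
          apply eval_congr
          rintro (_ | n) ha
          · exact absurd ha h2
          · rfl
        refine ⟨r1 * t, Or.inl m1, Set.union_subset_union_left _ v1, fun σ g => ?_⟩
        rw [eval_mul', eval_mul', e1, e2, hS.add_mul, eval_mul]
    · have h2 : none ∈ t.vars := h.resolve_left h1
      obtain ⟨r2, m2, v2, e2⟩ := ht h2
      have e1 : ∀ (σ : ℕ → S) (g : S), s.eval (ext σ (g + g)) = s.eval (ext σ g) := by
        intro σ g
        apply eval_congr
        rintro (_ | n) ha
        · exact absurd ha h1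
        · rfl
      refine ⟨s * r2, Or.inr m2, Set.union_subset_union_right _ v2, fun σ g => ?_⟩
      rw [eval_mul', eval_mul', e1, e2, hS.mul_add, eval_mul]

/-- The property of the absorbed term `r` attached to `p`. -/
structure Absorbs (S : Type u) [Add S] [Mul S] (p : Term ℕ) (r : Term (Option ℕ)) : Prop where
  none_mem : none ∈ r.vars
  some_mem : ∀ n, some n ∈ r.vars → n ∈ p.vars
  eq : ∀ (σ : ℕ → S) (g : S), p.eval σ = p.eval σ + r.eval (ext σ g)

theorem exists_absorbs {S : Type u} [Add S] [Mul S] (hS : IsSemiring S) (p q : Term ℕ)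
    (h : Holds S p q) (hne : p.vars ≠ q.vars) : ∃ r, Absorbs S p r := by
  classical
  have step1 : ∃ p' : Term (Option ℕ), none ∈ p'.vars ∧ (∀ n, some n ∈ p'.vars → n ∈ p.vars) ∧
      ∀ (σ : ℕ → S) (g : S), p.eval σ = p'.eval (ext σ g) := by
    have hcase : (∃ y ∈ q.vars, y ∉ p.vars) ∨ (∃ y ∈ p.vars, y ∉ q.vars) := by
      by_contra hcon
      push Not at hcon
      exact hne (Set.Subset.antisymm hcon.2 hcon.1)
    rcases hcase with ⟨y, hy, hy'⟩ | ⟨y, hy, hy'⟩
    · refine ⟨q.bind (fun n => if n ∈ p.vars then .var (some n) else .var none), ?_, ?_, ?_⟩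
      · rw [mem_vars_bind]
        exact ⟨y, hy, by rw [if_neg hy']; rfl⟩
      · intro n hn
        rw [mem_vars_bind] at hn
        obtain ⟨m, -, hm⟩ := hn
        by_cases hmp : m ∈ p.vars
        · rw [if_pos hmp] at hm
          have : some n = some m := hm
          rw [Option.some.inj this]
          exact hmp
        · rw [if_neg hmp] at hm
          have : some n = none := hm
          exact absurd this (by simp)
      · intro σ g
        rw [eval_bind]
        have e1 : (fun n => Term.eval (ext σ g) (if n ∈ p.vars then Term.var (some n)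
            else Term.var none)) = fun n => if n ∈ p.vars then σ n else g := by
          funext n
          split <;> rfl
        rw [e1, ← h]
        apply eval_congr
        intro a ha
        rw [if_pos ha]
    · refine ⟨p.bind (fun n => if n = y then .var none else .var (some n)), ?_, ?_, ?_⟩
      · rw [mem_vars_bind]
        exact ⟨y, hy, by rw [if_pos rfl]; rfl⟩
      · intro n hn
        rw [mem_vars_bind] at hn
        obtain ⟨m, hmp, hm⟩ := hn
        by_cases hmy : m = y
        · rw [if_pos hmy] at hm
          have : some n = none := hm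
          exact absurd this (by simp)
        · rw [if_neg hmy] at hm
          have : some n = some m := hm
          rw [Option.some.inj this]
          exact hmp
      · intro σ g
        rw [eval_bind]
        have e1 : (fun n => Term.eval (ext σ g) (if n = y then Term.var none
            else Term.var (some n))) = fun n => if n = y then g else σ n := by
          funext n
          split <;> rfl
        rw [e1, h, h]
        apply eval_congr
        intro a ha
        rw [if_neg]
        rintro rfl
        exact hy' ha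
  obtain ⟨p', m1, v1, e1⟩ := step1
  obtain ⟨r, m2, v2, e2⟩ := (expand hS p').2 m1
  refine ⟨r, m2, fun n hn => v1 n (v2 hn), fun σ g => ?_⟩
  exact (e1 σ (g + g)).trans ((e2 σ g).trans (by rw [← e1 σ g]))

theorem Absorbs.good {S : Type u} [Add S] [Mul S] (hS : IsSemiring S) {p : Term ℕ}
    {r : Term (Option ℕ)} (h : Absorbs S p r) : Good S p r where
  g1 i U V σ x := by
    have e := congrArg (wrap i U V) (h.eq σ x)
    rw [wrap_add hS] at e
    rw [add_right_comm' hS, ← e]
  gl i b U V W σ := by
    have e := congrArg (wrap i U V) (h.eq σ (addO b (wrap i U V (p.eval σ)) W))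
    rw [wrap_add hS] at e
    cases b with
    | false => exact e
    | true =>
      change wrap i U V (p.eval σ) + W = wrap i U V (p.eval σ) + W + _
      rw [add_right_comm' hS]
      exact congrArg (· + W) e
  g2a i b U V W x y σ := by rw [← h.eq, ← h.eq]
  g2b i b U V W x σ := by rw [← h.eq, ← h.eq]
  g2c i b U V W x y σ := by rw [← h.eq, ← h.eq]

/-! ### The finite set of identities -/

/-- The term `p` with its variables shifted. -/
def hat (p : Term ℕ) : Term ℕ := p.bind (fun n => .var (n + 5))

/-- The term `r` with its variables shifted and `g` substituted for `none`. -/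
def hatR (r : Term (Option ℕ)) (g : Term ℕ) : Term ℕ :=
  r.bind (fun o => o.elim g (fun n => .var (n + 5)))

/-- The identities expressing `Good`. -/
def idents (p : Term ℕ) (r : Term (Option ℕ)) : (Bool × Bool) × Bool × Fin 5 → Term ℕ × Term ℕ
  | (i, _, 0) => (wrap i (.var 0) (.var 1) (hat p) + .var 3,
      wrap i (.var 0) (.var 1) (hat p) + .var 3 + wrap i (.var 0) (.var 1) (hatR r (.var 3)))
  | (i, b, 1) => (addO b (wrap i (.var 0) (.var 1) (hat p)) (.var 2),
      addO b (wrap i (.var 0) (.var 1) (hat p)) (.var 2) + wrap i (.var 0) (.var 1)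
        (hatR r (addO b (wrap i (.var 0) (.var 1) (hat p)) (.var 2))))
  | (i, b, 2) => (hat p + hatR r (addO b (wrap i (.var 0) (.var 1) (.var 3 * .var 4)) (.var 2)),
      hat p + hatR r (addO b (wrap i (.var 0) (.var 1) (.var 4 * .var 3)) (.var 2)))
  | (i, b, 3) => (hat p + hatR r (addO b (wrap i (.var 0) (.var 1) (.var 3 * .var 3)) (.var 2)),
      hat p + hatR r (addO b (wrap i (.var 0) (.var 1) (.var 3)) (.var 2)))
  | (i, b, 4) => (hat p + hatR r (addO b (wrap i (.var 0) (.var 1) (.var 3 + .var 4)) (.var 2)),
      hat p + hatR r (addO b (wrap i (.var 0) (.var 1) (.var 3 * .var 4)) (.var 2)))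

section
variable {A : Type u} [Add A] [Mul A]

theorem eval_hat (ρ : ℕ → A) (p : Term ℕ) : (hat p).eval ρ = p.eval (fun n => ρ (n + 5)) :=
  eval_bind _ _ _

theorem eval_hatR (ρ : ℕ → A) (r : Term (Option ℕ)) (g : Term ℕ) :
    (hatR r g).eval ρ = r.eval (ext (fun n => ρ (n + 5)) (g.eval ρ)) := by
  rw [hatR, eval_bind]
  congr 1
  funext o
  cases o <;> rfl

theorem Good.holds {p : Term ℕ} {r : Term (Option ℕ)} (h : Good A p r)
    (k : (Bool × Bool) × Bool × Fin 5) : Holds A (idents p r k).1 (idents p r k).2 := by
  obtain ⟨i, b, j⟩ := k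
  intro ρ
  fin_cases j
  · simp only [idents, eval_add, eval_wrap, eval_hat, eval_hatR, eval_var]
    exact h.g1 i _ _ _ _
  · simp only [idents, eval_add, eval_wrap, eval_addO, eval_hat, eval_hatR, eval_var]
    exact h.gl i b _ _ _ _
  · simp only [idents, eval_add, eval_mul, eval_wrap, eval_addO, eval_hat, eval_hatR, eval_var]
    exact h.g2a i b _ _ _ _ _ _
  · simp only [idents, eval_add, eval_mul, eval_wrap, eval_addO, eval_hat, eval_hatR, eval_var]
    exact h.g2b i b _ _ _ _ _
  · simp only [idents, eval_add, eval_mul, eval_wrap, eval_addO, eval_hat, eval_hatR, eval_var]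
    exact h.g2c i b _ _ _ _ _ _

/-- The assignment used to read off `Good`. -/
def asg (σ : ℕ → A) (U V W x y : A) : ℕ → A
  | 0 => U
  | 1 => V
  | 2 => W
  | 3 => x
  | 4 => y
  | n + 5 => σ n

theorem good_of_holds {p : Term ℕ} {r : Term (Option ℕ)}
    (h : ∀ k, Holds A (idents p r k).1 (idents p r k).2) : Good A p r where
  g1 i U V σ x := by
    have := h (i, true, 0) (asg σ U V U x x)
    simp only [idents, eval_add, eval_wrap, eval_hat, eval_hatR, eval_var] at this
    exact this
  gl i b U V W σ := by
    have := h (i, b, 1) (asg σ U V W W W)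
    simp only [idents, eval_add, eval_wrap, eval_addO, eval_hat, eval_hatR, eval_var] at this
    exact this
  g2a i b U V W x y σ := by
    have := h (i, b, 2) (asg σ U V W x y)
    simp only [idents, eval_add, eval_mul, eval_wrap, eval_addO, eval_hat, eval_hatR,
      eval_var] at this
    exact this
  g2b i b U V W x σ := by
    have := h (i, b, 3) (asg σ U V W x x)
    simp only [idents, eval_add, eval_mul, eval_wrap, eval_addO, eval_hat, eval_hatR,
      eval_var] at this
    exact this
  g2c i b U V W x y σ := by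
    have := h (i, b, 4) (asg σ U V W x y)
    simp only [idents, eval_add, eval_mul, eval_wrap, eval_addO, eval_hat, eval_hatR,
      eval_var] at this
    exact this

end

/-- The shifted variables of `r`. -/
def QS (r : Term (Option ℕ)) : Set ℕ := {m | ∃ n, some n ∈ r.vars ∧ m = n + 5}

theorem vars_hatR {r : Term (Option ℕ)} (hr : none ∈ r.vars) (g : Term ℕ) :
    (hatR r g).vars = g.vars ∪ QS r := by
  ext m
  rw [hatR, mem_vars_bind]
  constructor
  · rintro ⟨_ | n, ha, hm⟩
    · exact Or.inl hm
    · exact Or.inr ⟨n, ha, hm⟩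
  · rintro (hm | ⟨n, hn, hm⟩)
    · exact ⟨none, hr, hm⟩
    · exact ⟨some n, hn, hm⟩

theorem QS_subset {p : Term ℕ} {r : Term (Option ℕ)}
    (hr' : ∀ n, some n ∈ r.vars → n ∈ p.vars) : QS r ⊆ (hat p).vars := by
  rintro m ⟨n, hn, rfl⟩
  rw [hat, mem_vars_bind]
  exact ⟨n, hr' n hn, rfl⟩

theorem idents_regular {p : Term ℕ} {r : Term (Option ℕ)} (hr : none ∈ r.vars)
    (hr' : ∀ n, some n ∈ r.vars → n ∈ p.vars) (k : (Bool × Bool) × Bool × Fin 5) :
    (idents p r k).1.vars = (idents p r k).2.vars := by
  obtain ⟨⟨i1, i2⟩, b, j⟩ := k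
  ext m
  have hm : m ∈ QS r → m ∈ (hat p).vars := fun h => QS_subset hr' h
  cases i1 <;> cases i2 <;> cases b <;> fin_cases j <;>
    simp only [idents, wrap, addO, vars_add, vars_mul, vars_var, vars_hatR hr, Set.mem_union,
      Set.mem_singleton_iff] <;> tauto

/-- The identity linking the two sides of an irregular identity. -/
def ident3 (p q : Term ℕ) (r r' : Term (Option ℕ)) : Term ℕ × Term ℕ :=
  (hat p + hatR r (.var 3 * hat p * hat q), hat q + hatR r' (.var 3 * hat p * hat q))

theorem ident3_regular {p q : Term ℕ} {r r' : Term (Option ℕ)} (hr : none ∈ r.vars)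
    (hs : ∀ n, some n ∈ r.vars → n ∈ p.vars) (hr' : none ∈ r'.vars)
    (hs' : ∀ n, some n ∈ r'.vars → n ∈ q.vars) :
    (ident3 p q r r').1.vars = (ident3 p q r r').2.vars := by
  ext m
  have hm : m ∈ QS r → m ∈ (hat p).vars := fun h => QS_subset hs h
  have hm' : m ∈ QS r' → m ∈ (hat q).vars := fun h => QS_subset hs' h
  simp only [ident3, vars_add, vars_mul, vars_var, vars_hatR hr, vars_hatR hr', Set.mem_union,
      Set.mem_singleton_iff]
  tauto

theorem ident3_holds {S : Type u} [Add S] [Mul S] {p q : Term ℕ} {r r' : Term (Option ℕ)}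
    (h : Absorbs S p r) (h' : Absorbs S q r') (hpq : Holds S p q) :
    Holds S (ident3 p q r r').1 (ident3 p q r r').2 := by
  intro ρ
  simp only [ident3, eval_add, eval_mul, eval_hat, eval_hatR, eval_var]
  rw [← h.eq, ← h'.eq]
  exact hpq _

theorem ident3_eval {A : Type u} [Add A] [Mul A] {p q : Term ℕ} {r r' : Term (Option ℕ)}
    (h : Holds A (ident3 p q r r').1 (ident3 p q r r').2) (σ : ℕ → A) (x : A) :
    p.eval σ + r.eval (ext σ (x * p.eval σ * q.eval σ)) =
      q.eval σ + r'.eval (ext σ (x * p.eval σ * q.eval σ)) := by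
  have := h (asg σ x x x x x)
  simp only [ident3, eval_add, eval_mul, eval_hat, eval_hatR, eval_var] at this
  exact this

end Pool.Agent.Lib.MP_cd9307_al
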