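import Pool.Agent.Lib.MP_cd9307_al.Idents

universe u

namespace Pool.Agent.Lib.MP_cd9307_al

/-! ### Identities of `S ∪ {∞}` -/

theorem eval_of {α : Type} {S : Type u} [Add S] [Mul S] (τ : α → S) (s : Term α) :
    s.eval (fun n => AdjInf.of (τ n)) = AdjInf.of (s.eval τ) := by
  induction s with
  | var a => rfl
  | add s t hs ht => rw [eval_add', hs, ht]; rfl
  | mul s t hs ht => rw [eval_mul', hs, ht]; rfl

theorem inf_add {S : Type u} [Add S] (x : AdjInf S) : AdjInf.inf + x = AdjInf.inf := by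
  cases x <;> rfl
theorem add_inf {S : Type u} [Add S] (x : AdjInf S) : x + AdjInf.inf = AdjInf.inf := by
  cases x <;> rfl
theorem inf_mul {S : Type u} [Mul S] (x : AdjInf S) : AdjInf.inf * x = AdjInf.inf := by
  cases x <;> rfl
theorem mul_inf {S : Type u} [Mul S] (x : AdjInf S) : x * AdjInf.inf = AdjInf.inf := by
  cases x <;> rfl

theorem eval_inf {α : Type} {S : Type u} [Add S] [Mul S] (ρ : α → AdjInf S) (s : Term α) (a : α)
    (ha : a ∈ s.vars) (h : ρ a = AdjInf.inf) : s.eval ρ = AdjInf.inf := by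
  induction s with
  | var b => rw [Set.mem_singleton_iff.1 ha] at h; exact h
  | add s t hs ht =>
    rcases ha with ha | ha
    · rw [eval_add', hs ha, inf_add]
    · rw [eval_add', ht ha, add_inf]
  | mul s t hs ht =>
    rcases ha with ha | ha
    · rw [eval_mul', hs ha, inf_mul]
    · rw [eval_mul', ht ha, mul_inf]

/-- A left inverse of the inclusion. -/
def toS {S : Type u} (x0 : S) : AdjInf S → S
  | .of x => x
  | .inf => x0

theorem of_toS {S : Type u} (x0 : S) (y : AdjInf S) (h : y ≠ AdjInf.inf) :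
    y = AdjInf.of (toS x0 y) := by
  cases y with
  | of x => rfl
  | inf => exact absurd rfl h

theorem holds_adjInf_of {S : Type u} [Add S] [Mul S] (s t : Term ℕ)
    (hv : s.vars = t.vars) (h : Holds S s t) : Holds (AdjInf S) s t := by
  intro ρ
  by_cases hex : ∃ n ∈ s.vars, ρ n = AdjInf.inf
  · obtain ⟨n, hn, he⟩ := hex
    rw [eval_inf ρ s n hn he, eval_inf ρ t n (hv ▸ hn) he]
  · push Not at hex
    obtain ⟨n0, hn0⟩ := vars_nonempty s
    have hS : ∃ x : S, ρ n0 = AdjInf.of x := by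
      rcases hρ : ρ n0 with x | _
      · exact ⟨x, rfl⟩
      · exact absurd hρ (hex n0 hn0)
    obtain ⟨x0, -⟩ := hS
    have hτ : ∃ τ : ℕ → S, ∀ n ∈ s.vars, ρ n = AdjInf.of (τ n) := by
      exact ⟨fun n => toS x0 (ρ n), fun n hn => of_toS x0 (ρ n) (hex n hn)⟩
    obtain ⟨τ, hτ⟩ := hτ
    rw [eval_congr ρ (fun n => AdjInf.of (τ n)) s hτ,
      eval_congr ρ (fun n => AdjInf.of (τ n)) t (fun n hn => hτ n (hv ▸ hn)), eval_of, eval_of, h]

theorem of_injective {S : Type u} {x y : S} (h : AdjInf.of x = AdjInf.of y) : x = y := by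
  injection h

theorem holds_of_adjInf {S : Type u} [Add S] [Mul S] (s t : Term ℕ)
    (h : Holds (AdjInf S) s t) : Holds S s t := by
  intro τ
  have := h (fun n => AdjInf.of (τ n))
  rw [eval_of, eval_of] at this
  exact of_injective this

theorem vars_subset_of_adjInf {S : Type u} [Add S] [Mul S] [Nonempty S] (s t : Term ℕ)
    (h : Holds (AdjInf S) s t) : s.vars ⊆ t.vars := by
  classical
  intro n hn
  by_contra hnt
  obtain ⟨x⟩ := ‹Nonempty S›
  have h1 := h (fun m => if m = n then AdjInf.inf else AdjInf.of x)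
  rw [eval_inf _ s n hn (if_pos rfl), eval_congr _ (fun _ => AdjInf.of x) t, eval_of] at h1
  · cases h1
  · intro a ha
    rw [if_neg]
    rintro rfl
    exact hnt ha

theorem vars_eq_of_adjInf {S : Type u} [Add S] [Mul S] [Nonempty S] (s t : Term ℕ)
    (h : Holds (AdjInf S) s t) : s.vars = t.vars :=
  Set.Subset.antisymm (vars_subset_of_adjInf s t h)
    (vars_subset_of_adjInf t s (fun ρ => (h ρ).symm))

/-! ### The semiring axioms as identities -/

/-- The semiring axioms. -/
def axioms5 : Set (Term ℕ × Term ℕ) :=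
  {(.var 0 + .var 1, .var 1 + .var 0),
   (.var 0 + .var 1 + .var 2, .var 0 + (.var 1 + .var 2)),
   (.var 0 * .var 1 * .var 2, .var 0 * (.var 1 * .var 2)),
   ((.var 0 + .var 1) * .var 2, .var 0 * .var 2 + .var 1 * .var 2),
   (.var 0 * (.var 1 + .var 2), .var 0 * .var 1 + .var 0 * .var 2)}

theorem axioms5_finite : axioms5.Finite := by
  unfold axioms5
  exact Set.toFinite _

theorem axioms5_regular : ∀ e ∈ axioms5, e.1.vars = e.2.vars := by
  rintro e (rfl | rfl | rfl | rfl | rfl) <;> ext m <;>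
    simp only [vars_add, vars_mul, vars_var, Set.mem_union, Set.mem_singleton_iff] <;> tauto

theorem axioms5_holds {S : Type u} [Add S] [Mul S] (hS : IsSemiring S) :
    ∀ e ∈ axioms5, Holds S e.1 e.2 := by
  rintro e (rfl | rfl | rfl | rfl | rfl) ρ
  · exact hS.add_comm _ _
  · exact hS.add_assoc _ _ _
  · exact hS.mul_assoc _ _ _
  · exact hS.add_mul _ _ _
  · exact hS.mul_add _ _ _

theorem isSemiring_of_axioms5 {A : Type u} [Add A] [Mul A]
    (h : ∀ e ∈ axioms5, Holds A e.1 e.2) : IsSemiring A where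
  add_comm x y := by
    have := h (.var 0 + .var 1, .var 1 + .var 0) (Or.inl rfl) (asg (fun _ => x) x y x x x)
    exact this
  add_assoc x y z := by
    have := h (.var 0 + .var 1 + .var 2, .var 0 + (.var 1 + .var 2)) (Or.inr (Or.inl rfl))
      (asg (fun _ => x) x y z x x)
    exact this
  mul_assoc x y z := by
    have := h (.var 0 * .var 1 * .var 2, .var 0 * (.var 1 * .var 2))
      (Or.inr (Or.inr (Or.inl rfl))) (asg (fun _ => x) x y z x x)
    exact this
  add_mul x y z := by
    have := h ((.var 0 + .var 1) * .var 2, .var 0 * .var 2 + .var 1 * .var 2)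
      (Or.inr (Or.inr (Or.inr (Or.inl rfl)))) (asg (fun _ => x) x y z x x)
    exact this
  mul_add x y z := by
    have := h (.var 0 * (.var 1 + .var 2), .var 0 * .var 1 + .var 0 * .var 2)
      (Or.inr (Or.inr (Or.inr (Or.inr (Set.mem_singleton _))))) (asg (fun _ => x) x y z x x)
    exact this

/-! ### Subalgebra generated by an assignment -/

section sub
variable {A : Type u} [Add A] [Mul A] (ρ : ℕ → A)

/-- The subalgebra generated by the values of `ρ`. -/
def Sub : Type u := {a : A // ∃ s : Term ℕ, s.eval ρ = a}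

instance : Add (Sub ρ) := ⟨fun a b => ⟨a.1 + b.1, by
  obtain ⟨s, hs⟩ := a.2
  obtain ⟨t, ht⟩ := b.2
  exact ⟨s + t, by rw [eval_add, hs, ht]⟩⟩⟩

instance : Mul (Sub ρ) := ⟨fun a b => ⟨a.1 * b.1, by
  obtain ⟨s, hs⟩ := a.2
  obtain ⟨t, ht⟩ := b.2
  exact ⟨s * t, by rw [eval_mul, hs, ht]⟩⟩⟩

theorem sub_eval {α : Type} (τ : α → Sub ρ) (s : Term α) :
    (s.eval τ).1 = s.eval (fun n => (τ n).1) := by
  induction s with
  | var a => rfl
  | add s t hs ht => rw [eval_add', eval_add', ← hs, ← ht]; rfl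
  | mul s t hs ht => rw [eval_mul', eval_mul', ← hs, ← ht]; rfl

theorem sub_holds {s t : Term ℕ} (h : Holds A s t) : Holds (Sub ρ) s t := by
  intro τ
  apply Subtype.ext
  rw [sub_eval, sub_eval]
  exact h _

/-- The generating assignment. -/
def gen : ℕ → Sub ρ := fun n => ⟨ρ n, .var n, rfl⟩

theorem gen_surj (a : Sub ρ) : ∃ s : Term ℕ, s.eval (gen ρ) = a := by
  obtain ⟨a, s, rfl⟩ := a
  refine ⟨s, Subtype.ext ?_⟩
  rw [sub_eval]
  rfl

end sub

theorem finitelyBased_adjInf_of_nonempty {S : Type u} [Add S] [Mul S] [Nonempty S]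
    (hS : IsSemiring S) (h : FinitelyBased S) : FinitelyBased (AdjInf S) := by
  classical
  obtain ⟨B, hfin, hB⟩ := h
  have hBS : ∀ e ∈ B, Holds S e.1 e.2 := (hB S).1 (fun s t h => h)
  have hr : ∀ p : Term ℕ, ∃ r : Term (Option ℕ),
      (∃ q, Holds S p q ∧ p.vars ≠ q.vars) → Absorbs S p r := by
    intro p
    by_cases hp : ∃ q, Holds S p q ∧ p.vars ≠ q.vars
    · obtain ⟨q, h1, h2⟩ := hp
      obtain ⟨r, hr⟩ := exists_absorbs hS p q h1 h2
      exact ⟨r, fun _ => hr⟩
    · exact ⟨.var none, fun h => absurd h hp⟩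
  choose rr hrr using hr
  have hab : ∀ e ∈ B, e.1.vars ≠ e.2.vars →
      Absorbs S e.1 (rr e.1) ∧ Absorbs S e.2 (rr e.2) := fun e he hne =>
    ⟨hrr _ ⟨e.2, hBS e he, hne⟩, hrr _ ⟨e.1, fun ρ => (hBS e he ρ).symm, hne.symm⟩⟩
  set G : Set (Term ℕ × Term ℕ) := axioms5 ∪ {e ∈ B | e.1.vars = e.2.vars} ∪
    ⋃ e ∈ {e ∈ B | e.1.vars ≠ e.2.vars}, ({ident3 e.1 e.2 (rr e.1) (rr e.2)} ∪
      Set.range (idents e.1 (rr e.1)) ∪ Set.range (idents e.2 (rr e.2))) with hG
  have hGfin : G.Finite := by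
    refine Set.Finite.union (Set.Finite.union axioms5_finite (hfin.subset fun e he => he.1)) ?_
    refine Set.Finite.biUnion (hfin.subset fun e he => he.1) fun e _ => ?_
    exact ((Set.finite_singleton _).union (Set.finite_range _)).union (Set.finite_range _)
  have hGreg : ∀ e ∈ G, e.1.vars = e.2.vars := by
    rintro e ((he | he) | he)
    · exact axioms5_regular e he
    · exact he.2
    · rw [Set.mem_iUnion₂] at he
      obtain ⟨e', ⟨he', hne⟩, (h1 | ⟨k, h1⟩) | ⟨k, h1⟩⟩ := he
      · obtain ⟨a1, a2⟩ := hab e' he' hne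
        rw [Set.mem_singleton_iff.1 h1]
        exact ident3_regular a1.none_mem a1.some_mem a2.none_mem a2.some_mem
      · obtain ⟨a1, a2⟩ := hab e' he' hne
        rw [← h1]
        exact idents_regular a1.none_mem a1.some_mem k
      · obtain ⟨a1, a2⟩ := hab e' he' hne
        rw [← h1]
        exact idents_regular a2.none_mem a2.some_mem k
  have hGS : ∀ e ∈ G, Holds S e.1 e.2 := by
    rintro e ((he | he) | he)
    · exact axioms5_holds hS e he
    · exact hBS e he.1
    · rw [Set.mem_iUnion₂] at he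
      obtain ⟨e', ⟨he', hne⟩, (h1 | ⟨k, h1⟩) | ⟨k, h1⟩⟩ := he
      · obtain ⟨a1, a2⟩ := hab e' he' hne
        rw [Set.mem_singleton_iff.1 h1]
        exact ident3_holds a1 a2 (hBS e' he')
      · obtain ⟨a1, a2⟩ := hab e' he' hne
        rw [← h1]
        exact (a1.good hS).holds k
      · obtain ⟨a1, a2⟩ := hab e' he' hne
        rw [← h1]
        exact (a2.good hS).holds k
  refine ⟨G, hGfin, fun A _ _ => ⟨fun hA e he => ?_, fun hA s t hst ρ => ?_⟩⟩
  · exact hA _ _ (holds_adjInf_of _ _ (hGreg e he) (hGS e he))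
  · have hv := vars_eq_of_adjInf s t hst
    have hs := holds_of_adjInf s t hst
    obtain ⟨x0, hx0⟩ := vars_nonempty s
    set ρ' : ℕ → A := fun n => if n ∈ s.vars then ρ n else ρ x0 with hρ'
    have e1 : s.eval ρ = s.eval ρ' := eval_congr _ _ _ fun a ha => (if_pos ha).symm
    have e2 : t.eval ρ = t.eval ρ' :=
      eval_congr _ _ _ fun a ha => (if_pos (hv ▸ ha)).symm
    have hsub : ∀ e ∈ G, Holds (Sub ρ') e.1 e.2 := fun e he => sub_holds ρ' (hA e he)
    have hAx : IsSemiring (Sub ρ') :=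
      isSemiring_of_axioms5 fun e he => hsub e (Or.inl (Or.inl he))
    have hin : ∀ e ∈ B, e.1.vars ≠ e.2.vars → ∀ f ∈ ({ident3 e.1 e.2 (rr e.1) (rr e.2)} ∪
        Set.range (idents e.1 (rr e.1)) ∪ Set.range (idents e.2 (rr e.2)) :
        Set (Term ℕ × Term ℕ)), f ∈ G := by
      intro e he hne f hf
      refine Or.inr ?_
      rw [Set.mem_iUnion₂]
      exact ⟨e, ⟨he, hne⟩, hf⟩
    have key := main_sem (A := Sub ρ') hAx (rr := rr) S B
      (fun D _ _ hD => (hB D).2 hD)
      (fun e he hreg => hsub e (Or.inl (Or.inr ⟨he, hreg⟩)))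
      (fun e he hne => ⟨good_of_holds fun k => hsub _
          (hin e he hne _ (Or.inl (Or.inr ⟨k, rfl⟩))),
        good_of_holds fun k => hsub _ (hin e he hne _ (Or.inr ⟨k, rfl⟩))⟩)
      (fun e he hne => ⟨(hab e he hne).1.none_mem, (hab e he hne).2.none_mem⟩)
      (fun e he hne σ x => ident3_eval (hsub _ (hin e he hne _ (Or.inl (Or.inl rfl)))) σ x)
      (ρ := gen ρ') (gen_surj ρ') (X := s.vars)
      (fun n => by
        by_cases hn : n ∈ s.vars
        · exact ⟨n, hn, rfl⟩
        · refine ⟨x0, hx0, Subtype.ext ?_⟩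
          change ρ' x0 = ρ' n
          simp only [hρ', if_pos hx0, if_neg hn])
      s t (fun _ h => h) (fun _ h => hv ▸ h) hs
    have key2 := congrArg Subtype.val key
    rw [sub_eval, sub_eval] at key2
    rw [e1, e2]
    exact key2

theorem finitelyBased_adjInf_of_isEmpty {S : Type u} [Add S] [Mul S] [IsEmpty S] :
    FinitelyBased (AdjInf S) := by
  refine ⟨{(.var 0, .var 1)}, Set.finite_singleton _, fun A _ _ => ⟨fun hA e he => ?_,
    fun hA s t _ ρ => ?_⟩⟩
  · apply hA
    intro ρ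
    have : ∀ x y : AdjInf S, x = y := by
      rintro (x | _) (y | _)
      · exact (IsEmpty.false x).elim
      · exact (IsEmpty.false x).elim
      · exact (IsEmpty.false y).elim
      · rfl
    exact this _ _
  · have h := hA (.var 0, .var 1) rfl (fun n => if n = 0 then s.eval ρ else t.eval ρ)
    simpa using h

theorem finitelyBased_adjInf {S : Type u} [Add S] [Mul S]
    (hS : IsSemiring S) (h : FinitelyBased S) : FinitelyBased (AdjInf S) := by
  rcases isEmpty_or_nonempty S with h' | h'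
  · exact finitelyBased_adjInf_of_isEmpty
  · exact finitelyBased_adjInf_of_nonempty hS h

end Pool.Agent.Lib.MP_cd9307_al
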