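import Pool.Agent.Lib.MP_cd9307_al.Core

universe u

namespace Pool.Agent.Lib.MP_cd9307_al

section
variable {A : Type u} [Add A] [Mul A]

/-- `a'` is obtained from `a` by attaching the element `c` at some occurrence of a term of `P`. -/
def NR (P : Set (Term ℕ)) (rr : Term ℕ → Term (Option ℕ)) (c a a' : A) : Prop :=
  ∃ p ∈ P, ∃ i b, ∃ (U V W : A) (σ : ℕ → A), a = addO b (wrap i U V (p.eval σ)) W ∧
    a' = a + wrap i U V ((rr p).eval (ext σ c))

/-- The congruence. -/
def TH (P : Set (Term ℕ)) (rr : Term ℕ → Term (Option ℕ)) (c a b : A) : Prop :=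
  a = b ∨ ∃ w, NR P rr c a w ∧ NR P rr c b w

variable (hA : IsSemiring A) {P : Set (Term ℕ)} {rr : Term ℕ → Term (Option ℕ)}
  (hgood : ∀ p ∈ P, Good A p (rr p)) (hnone : ∀ p ∈ P, none ∈ (rr p).vars)
  {ρ : ℕ → A} (hρ : ∀ a, ∃ s : Term ℕ, s.eval ρ = a) {X : Set ℕ}
  (hX : ∀ n, ∃ m ∈ X, ρ m = ρ n) {c : A} (hc : Full ρ X c)

include hnone hρ hc in
theorem NR.full {a a' : A} (h : NR P rr c a a') : ∃ f, Full ρ X f ∧ a' = a + f := by
  obtain ⟨p, hp, i, b, U, V, W, σ, -, h2⟩ := h
  exact ⟨_, (Full.eval hρ (ext σ c) (rr p) none (hnone p hp) hc).wrap hρ i U V, h2⟩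

include hA

theorem add_right_comm' (x y z : A) : x + y + z = x + z + y := by
  rw [hA.add_assoc, hA.add_comm y z, ← hA.add_assoc]

include hgood hX hc in
theorem wrap_content {p : Term ℕ} (hp : p ∈ P) (i : Bool × Bool) (U V : A) (σ : ℕ → A) {g : A}
    (hg : Full ρ X g) :
    wrap i U V (p.eval σ) + wrap i U V ((rr p).eval (ext σ g)) =
      wrap i U V (p.eval σ) + wrap i U V ((rr p).eval (ext σ c)) := by
  rw [← wrap_add hA, ← wrap_add hA, content hA (hgood p hp) σ ρ X hX hg hc]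

include hgood hX hc hρ in
theorem NR.absorb {a a' f : A} (h : NR P rr c a a') (hf : Full ρ X f) : a + f = a' + f := by
  obtain ⟨p, hp, i, b, U, V, W, σ, h1, h2⟩ := h
  have key : ∀ f, Full ρ X f → wrap i U V (p.eval σ) + f =
      wrap i U V (p.eval σ) + wrap i U V ((rr p).eval (ext σ c)) + f := by
    intro f hf
    rw [← wrap_content hA hgood hX hc hp i U V σ hf]
    rw [(hgood p hp).g1 i U V σ f]
    exact add_right_comm' hA _ _ _
  cases b with
  | false =>
    have h1' : a = wrap i U V (p.eval σ) := h1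
    rw [h2, h1']
    exact key f hf
  | true =>
    have h1' : a = wrap i U V (p.eval σ) + W := h1
    rw [h2, h1', hA.add_assoc, key (W + f) (hf.add_left hρ W), add_right_comm' hA _ W,
      ← hA.add_assoc]

include hgood hX hc hρ hnone in
theorem NR.unique {a a' a'' : A} (h : NR P rr c a a') (h' : NR P rr c a a'') : a' = a'' := by
  obtain ⟨f, hf, rfl⟩ := h.full hnone hρ hc
  obtain ⟨f', hf', rfl⟩ := h'.full hnone hρ hc
  calc a + f = a + f' + f := NR.absorb hA hgood hρ hX hc h' hf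
    _ = a + f + f' := add_right_comm' hA _ _ _
    _ = a + f' := (NR.absorb hA hgood hρ hX hc h hf').symm

include hgood hX hc in
theorem NR.self {a a' : A} (h : NR P rr c a a') (ha : Full ρ X a) : a' = a := by
  obtain ⟨p, hp, i, b, U, V, W, σ, h1, h2⟩ := h
  have h3 := (hgood p hp).gl i b U V W σ
  rw [← h1] at h3
  have key := wrap_content hA hgood hX hc hp i U V σ ha
  cases b with
  | false =>
    have h1' : a = wrap i U V (p.eval σ) := h1
    rw [← h1'] at key
    rw [h2, ← key]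
    exact h3.symm
  | true =>
    have h1' : a = wrap i U V (p.eval σ) + W := h1
    have e1 : a + wrap i U V ((rr p).eval (ext σ a)) =
        a + wrap i U V ((rr p).eval (ext σ c)) := by
      calc a + wrap i U V ((rr p).eval (ext σ a))
          = wrap i U V (p.eval σ) + W + wrap i U V ((rr p).eval (ext σ a)) :=
            congrArg (· + wrap i U V ((rr p).eval (ext σ a))) h1'
        _ = wrap i U V (p.eval σ) + wrap i U V ((rr p).eval (ext σ a)) + W :=
            add_right_comm' hA _ _ _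
        _ = wrap i U V (p.eval σ) + wrap i U V ((rr p).eval (ext σ c)) + W := by rw [key]
        _ = wrap i U V (p.eval σ) + W + wrap i U V ((rr p).eval (ext σ c)) :=
            add_right_comm' hA _ _ _
        _ = a + wrap i U V ((rr p).eval (ext σ c)) := by rw [← h1']
    rw [h2, ← e1]
    exact h3.symm

theorem NR.add {a a' : A} (h : NR P rr c a a') (d : A) : NR P rr c (a + d) (a' + d) := by
  obtain ⟨p, hp, i, b, U, V, W, σ, h1, h2⟩ := h
  cases b with
  | false =>
    refine ⟨p, hp, i, true, U, V, d, σ, ?_, ?_⟩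
    · have h1' : a = wrap i U V (p.eval σ) := h1
      rw [h1']
      rfl
    · rw [h2]
      exact add_right_comm' hA _ _ _
  | true =>
    refine ⟨p, hp, i, true, U, V, W + d, σ, ?_, ?_⟩
    · have h1' : a = wrap i U V (p.eval σ) + W := h1
      rw [h1', hA.add_assoc]
      rfl
    · rw [h2]
      exact add_right_comm' hA _ _ _

theorem NR.mul_left {a a' : A} (h : NR P rr c a a') (d : A) : NR P rr c (d * a) (d * a') := by
  obtain ⟨p, hp, i, b, U, V, W, σ, h1, h2⟩ := h
  obtain ⟨i', U', hw⟩ := mul_wrap hA i U V d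
  refine ⟨p, hp, i', b, U', V, d * W, σ, ?_, ?_⟩
  · cases b with
    | false =>
      have h1' : a = wrap i U V (p.eval σ) := h1
      rw [h1', hw]
      rfl
    | true =>
      have h1' : a = wrap i U V (p.eval σ) + W := h1
      rw [h1', hA.mul_add, hw]
      rfl
  · rw [h2, hA.mul_add, hw]

theorem NR.mul_right {a a' : A} (h : NR P rr c a a') (d : A) : NR P rr c (a * d) (a' * d) := by
  obtain ⟨p, hp, i, b, U, V, W, σ, h1, h2⟩ := h
  obtain ⟨i', V', hw⟩ := wrap_mul hA i U V d
  refine ⟨p, hp, i', b, U, V', W * d, σ, ?_, ?_⟩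
  · cases b with
    | false =>
      have h1' : a = wrap i U V (p.eval σ) := h1
      rw [h1', hw]
      rfl
    | true =>
      have h1' : a = wrap i U V (p.eval σ) + W := h1
      rw [h1', hA.add_mul, hw]
      rfl
  · rw [h2, hA.add_mul, hw]

omit hA in
theorem TH.symm {a b : A} (h : TH P rr c a b) : TH P rr c b a := by
  rcases h with rfl | ⟨w, h1, h2⟩
  · exact Or.inl rfl
  · exact Or.inr ⟨w, h2, h1⟩

include hgood hnone hρ hX hc in
theorem TH.trans {a b d : A} (h : TH P rr c a b) (h' : TH P rr c b d) : TH P rr c a d := by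
  rcases h with rfl | ⟨w, h1, h2⟩
  · exact h'
  · rcases h' with rfl | ⟨w', h3, h4⟩
    · exact Or.inr ⟨w, h1, h2⟩
    · refine Or.inr ⟨w, h1, ?_⟩
      rw [NR.unique hA hgood hnone hρ hX hc h2 h3]
      exact h4

theorem TH.add {a b : A} (h : TH P rr c a b) (d : A) : TH P rr c (a + d) (b + d) := by
  rcases h with rfl | ⟨w, h1, h2⟩
  · exact Or.inl rfl
  · exact Or.inr ⟨w + d, h1.add hA d, h2.add hA d⟩

theorem TH.add' {a b : A} (h : TH P rr c a b) (d : A) : TH P rr c (d + a) (d + b) := by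
  rw [hA.add_comm d a, hA.add_comm d b]
  exact TH.add hA h d

theorem TH.mul_left {a b : A} (h : TH P rr c a b) (d : A) : TH P rr c (d * a) (d * b) := by
  rcases h with rfl | ⟨w, h1, h2⟩
  · exact Or.inl rfl
  · exact Or.inr ⟨d * w, h1.mul_left hA d, h2.mul_left hA d⟩

theorem TH.mul_right {a b : A} (h : TH P rr c a b) (d : A) : TH P rr c (a * d) (b * d) := by
  rcases h with rfl | ⟨w, h1, h2⟩
  · exact Or.inl rfl
  · exact Or.inr ⟨w * d, h1.mul_right hA d, h2.mul_right hA d⟩

/-- The main semantic step. -/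
theorem main_sem (S : Type u) [Add S] [Mul S] (B : Set (Term ℕ × Term ℕ))
    (hB : ∀ (D : Type u) [Add D] [Mul D], (∀ e ∈ B, Holds D e.1 e.2) → InVariety S D)
    (hreg : ∀ e ∈ B, e.1.vars = e.2.vars → Holds A e.1 e.2)
    (hgood : ∀ e ∈ B, e.1.vars ≠ e.2.vars → Good A e.1 (rr e.1) ∧ Good A e.2 (rr e.2))
    (hnone : ∀ e ∈ B, e.1.vars ≠ e.2.vars → none ∈ (rr e.1).vars ∧ none ∈ (rr e.2).vars)
    (hg3 : ∀ e ∈ B, e.1.vars ≠ e.2.vars → ∀ (σ : ℕ → A) (x : A),
      e.1.eval σ + (rr e.1).eval (ext σ (x * e.1.eval σ * e.2.eval σ)) =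
        e.2.eval σ + (rr e.2).eval (ext σ (x * e.1.eval σ * e.2.eval σ)))
    {ρ : ℕ → A} (hρ : ∀ a, ∃ s : Term ℕ, s.eval ρ = a) {X : Set ℕ}
    (hX : ∀ n, ∃ m ∈ X, ρ m = ρ n) (t t' : Term ℕ) (ht : X ⊆ t.vars) (ht' : X ⊆ t'.vars)
    (h : Holds S t t') : t.eval ρ = t'.eval ρ := by
  set P : Set (Term ℕ) := {p | ∃ e ∈ B, e.1.vars ≠ e.2.vars ∧ (p = e.1 ∨ p = e.2)} with hP
  have hgood' : ∀ p ∈ P, Good A p (rr p) := by
    rintro p ⟨e, he, hne, rfl | rfl⟩
    · exact (hgood e he hne).1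
    · exact (hgood e he hne).2
  have hnone' : ∀ p ∈ P, none ∈ (rr p).vars := by
    rintro p ⟨e, he, hne, rfl | rfl⟩
    · exact (hnone e he hne).1
    · exact (hnone e he hne).2
  set c := t.eval ρ with hcdef
  have hc : Full ρ X c := ⟨t, ht, rfl⟩
  let st : Setoid A :=
    { r := TH P rr c
      iseqv := ⟨fun _ => Or.inl rfl, fun h => TH.symm h,
        fun h h' => TH.trans hA hgood' hnone' hρ hX hc h h'⟩ }
  let _ : Add (Quotient st) := ⟨Quotient.map₂ (· + ·) (fun a b hab d e hde =>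
    TH.trans hA hgood' hnone' hρ hX hc (TH.add hA hab d) (TH.add' hA hde b))⟩
  let _ : Mul (Quotient st) := ⟨Quotient.map₂ (· * ·) (fun a b hab d e hde =>
    TH.trans hA hgood' hnone' hρ hX hc (TH.mul_right hA hab d) (TH.mul_left hA hde b))⟩
  have heval : ∀ (τ : ℕ → A) (s : Term ℕ),
      s.eval (fun n => (Quotient.mk st (τ n) : Quotient st)) = Quotient.mk st (s.eval τ) := by
    intro τ s
    induction s with
    | var n => rfl
    | add s t hs ht => rw [eval_add', eval_add', hs, ht]; rfl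
    | mul s t hs ht => rw [eval_mul', eval_mul', hs, ht]; rfl
  have hmodel : ∀ e ∈ B, Holds (Quotient st) e.1 e.2 := by
    intro e he τ
    have hτ : τ = fun n => (Quotient.mk st ((τ n).out) : Quotient st) := by
      funext n
      exact (Quotient.out_eq (τ n)).symm
    set σ : ℕ → A := fun n => (τ n).out with hσ
    rw [hτ, heval, heval]
    apply Quotient.sound
    by_cases hne : e.1.vars = e.2.vars
    · exact Or.inl (hreg e he hne σ)
    · have hp1 : e.1 ∈ P := ⟨e, he, hne, Or.inl rfl⟩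
      have hp2 : e.2 ∈ P := ⟨e, he, hne, Or.inr rfl⟩
      refine Or.inr ⟨e.1.eval σ + (rr e.1).eval (ext σ c), ?_, ?_⟩
      · exact ⟨e.1, hp1, (false, false), false, c, c, c, σ, rfl, rfl⟩
      · refine ⟨e.2, hp2, (false, false), false, c, c, c, σ, rfl, ?_⟩
        have hcc : Full ρ X (c * e.1.eval σ * e.2.eval σ) :=
          (hc.mul_right hρ _).mul_right hρ _
        have e1 := content hA (hgood' _ hp1) σ ρ X hX hc hcc
        have e2 := content hA (hgood' _ hp2) σ ρ X hX hc hcc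
        rw [e1, hg3 e he hne σ c, ← e2]
        rfl
  have hfin := hB (Quotient st) hmodel t t' h (fun n => Quotient.mk st (ρ n))
  rw [heval, heval] at hfin
  have hth : TH P rr c (t.eval ρ) (t'.eval ρ) := Quotient.exact hfin
  rcases hth with h0 | ⟨w, h1, h2⟩
  · exact h0
  · exact (NR.self hA hgood' hX hc h1 ⟨t, ht, rfl⟩).symm.trans
      (NR.self hA hgood' hX hc h2 ⟨t', ht', rfl⟩)

end

end Pool.Agent.Lib.MP_cd9307_al
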